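import Mathlib

/-!
Theta functions on a Tate curve as Hahn series with Laurent polynomial coefficients
(helper file only).
-/

namespace Pool.Agent.P.MP_8707bd_ag.Tate

section General

variable {Γ R S : Type} [LinearOrder Γ] [AddCommGroup Γ] [IsOrderedAddMonoid Γ]
  [CommRing R] [CommRing S]

/-- Coefficientwise application of a ring homomorphism to a Hahn series. -/
noncomputable def hmap (f : R →+* S) : HahnSeries Γ R →+* HahnSeries Γ S where
  toFun x := x.map f
  map_one' := HahnSeries.map_one f.toMonoidWithZeroHom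
  map_mul' _ _ := HahnSeries.map_mul f.toNonUnitalRingHom
  map_zero' := by ext; simp
  map_add' x y := by ext; simp

lemma hmap_coeff (f : R →+* S) (x : HahnSeries Γ R) (g : Γ) :
    (hmap f x).coeff g = f (x.coeff g) := rfl

lemma hmap_single (f : R →+* S) (g : Γ) (a : R) :
    hmap f (HahnSeries.single g a) = HahnSeries.single g (f a) := by
  ext x
  rw [hmap_coeff, HahnSeries.coeff_single, HahnSeries.coeff_single]
  split_ifs <;> simp

lemma hmap_hmap {U : Type} [CommRing U] (f : R →+* S) (f' : S →+* U) (x : HahnSeries Γ R) :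
    hmap f' (hmap f x) = hmap (f'.comp f) x := by
  ext g
  rfl

/-- All exponents are at least `ω`. -/
def LB (ω : Γ) (f : HahnSeries Γ R) : Prop := ∀ γ < ω, f.coeff γ = 0

/-- All exponents are at least `ω`, and the coefficient at `ω` is `a`. -/
def Lead (ω : Γ) (a : R) (f : HahnSeries Γ R) : Prop := LB ω f ∧ f.coeff ω = a

lemma Lead.mul {ω ω' : Γ} {a a' : R} {f g : HahnSeries Γ R} (hf : Lead ω a f)
    (hg : Lead ω' a' g) : Lead (ω + ω') (a * a') (f * g) := by
  have key : ∀ γ, ∀ ij ∈ Finset.antidiagonal f.isPWO_support g.isPWO_support γ,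
      ω ≤ ij.1 ∧ ω' ≤ ij.2 ∧ ij.1 + ij.2 = γ := by
    intro γ ij hij
    rw [Finset.mem_antidiagonal] at hij
    refine ⟨not_lt.mp fun h => hij.1 (hf.1 _ h), not_lt.mp fun h => hij.2.1 (hg.1 _ h), hij.2.2⟩
  constructor
  · intro γ hγ
    rw [HahnSeries.coeff_mul]
    refine Finset.sum_eq_zero fun ij hij => ?_
    obtain ⟨h1, h2, h3⟩ := key γ ij hij
    exact absurd (h3 ▸ add_le_add h1 h2) (not_le.mpr hγ)
  · rw [HahnSeries.coeff_mul, Finset.sum_eq_single (ω, ω'), hf.2, hg.2]
    · intro ij hij hne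
      obtain ⟨h1, h2, h3⟩ := key _ ij hij
      exfalso
      apply hne
      have e1 : ij.1 = ω := by
        by_contra h
        exact absurd h3 (ne_of_gt (add_lt_add_of_lt_of_le (lt_of_le_of_ne h1 (Ne.symm h)) h2))
      have e2 : ij.2 = ω' := by
        rw [e1] at h3
        exact add_left_cancel h3
      exact Prod.ext e1 e2
    · intro h
      rw [Finset.mem_antidiagonal] at h
      by_cases h1 : f.coeff ω = 0
      · simp [h1]
      by_cases h2 : g.coeff ω' = 0
      · simp [h2]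
      exact absurd ⟨h1, h2, rfl⟩ h

lemma Lead.one : Lead (0 : Γ) (1 : R) 1 := by
  constructor
  · intro γ hγ
    rw [HahnSeries.coeff_one, if_neg hγ.ne]
  · simp

lemma Lead.pow {ω : Γ} {a : R} {f : HahnSeries Γ R} (hf : Lead ω a f) (n : ℕ) :
    Lead (n • ω) (a ^ n) (f ^ n) := by
  induction n with
  | zero => simpa using Lead.one
  | succ n ih => rw [succ_nsmul, pow_succ, pow_succ]; exact ih.mul hf

lemma Lead.isUnit [IsDomain R] {ω : Γ} {a : R} {f : HahnSeries Γ R} (hf : Lead ω a f)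
    (ha : IsUnit a) : IsUnit f := by
  have h0 : f.coeff ω ≠ 0 := by rw [hf.2]; exact ha.ne_zero
  have hne : f ≠ 0 := HahnSeries.ne_zero_of_coeff_ne_zero h0
  have ho : f.order = ω := by
    refine le_antisymm (HahnSeries.order_le_of_coeff_ne_zero h0) (not_lt.mp fun h => ?_)
    exact HahnSeries.coeff_order_eq_zero.not.2 hne (hf.1 _ h)
  rw [HahnSeries.isUnit_iff, HahnSeries.leadingCoeff_eq, ho, hf.2]
  exact ha

lemma lead_order (f : HahnSeries Γ R) : Lead f.order (f.coeff f.order) f :=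
  ⟨fun _ h => HahnSeries.coeff_eq_zero_of_lt_order h, rfl⟩

lemma Lead.hmap {ω : Γ} {a : R} {f : HahnSeries Γ R} (hf : Lead ω a f) (φ : R →+* S) :
    Lead ω (φ a) (hmap φ f) :=
  ⟨fun γ h => by rw [hmap_coeff, hf.1 γ h, map_zero], by rw [hmap_coeff, hf.2]⟩

end General

/-- Laurent polynomials in the coordinate of the Tate curve. -/
abbrev A : Type := LaurentPolynomial ℂ
/-- The valued ground field. -/
abbrev K0 : Type := HahnSeries ℝ ℂ
/-- Series on the unit circle of the Tate curve. -/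
abbrev R0 : Type := HahnSeries ℝ A

/-- Constants. -/
noncomputable def κ : K0 →+* R0 := hmap (LaurentPolynomial.C : ℂ →+* A)

/-- The coefficient of `τ ^ γ w ^ n`. -/
noncomputable def co (f : R0) (γ : ℝ) (n : ℤ) : ℂ := (f.coeff γ).coeff n

lemma co_add (f g : R0) (γ : ℝ) (n : ℤ) : co (f + g) γ n = co f γ n + co g γ n := by
  simp [co]

lemma co_zero (γ : ℝ) (n : ℤ) : co 0 γ n = 0 := by
  simp [co]

lemma eq_zero_of_co {f : R0} (h : ∀ γ n, co f γ n = 0) : f = 0 := by
  ext γ n
  simpa [co] using h γ n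

lemma co_κ (c : K0) (γ : ℝ) (n : ℤ) : co (κ c) γ n = if n = 0 then c.coeff γ else 0 := by
  rw [co, κ, hmap_coeff, LaurentPolynomial.C_apply]

lemma conv (f g : R0) (γ : ℝ) (n : ℤ) :
    co (f * g) γ n = ∑ᶠ p : ℝ × ℤ, co f p.1 p.2 * co g (γ - p.1) (n - p.2) := by
  classical
  set s := Finset.antidiagonal f.isPWO_support g.isPWO_support γ with hs
  rw [finsum_eq_sum_of_support_subset (s := (s.sigma fun ij => (f.coeff ij.1).coeff.support).image
    (fun x => (x.1.1, x.2)))]
  · rw [Finset.sum_image, Finset.sum_sigma, co, HahnSeries.coeff_mul, ← hs,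
      AddMonoidAlgebra.coeff_sum, Finsupp.finsetSum_apply]
    · refine Finset.sum_congr rfl fun ij hij => ?_
      rw [hs, Finset.mem_antidiagonal] at hij
      rw [AddMonoidAlgebra.coeff_mul_apply_left, Finsupp.sum]
      refine Finset.sum_congr rfl fun m _ => ?_
      have e : γ - ij.1 = ij.2 := by rw [← hij.2.2]; ring
      simp only [co, e]
      rw [neg_add_eq_sub]
    · rintro ⟨ij, m⟩ h1 ⟨ij', m'⟩ h2 h
      simp only [Prod.mk.injEq] at h
      simp only [Finset.coe_sigma, Set.mem_sigma_iff, Finset.mem_coe, hs,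
        Finset.mem_antidiagonal] at h1 h2
      have e : ij = ij' := by
        refine Prod.ext h.1 ?_
        have := h1.1.2.2.trans h2.1.2.2.symm
        rw [h.1] at this
        exact add_left_cancel this
      obtain rfl := e
      obtain rfl := h.2
      rfl
  · rintro ⟨γ₁, n₁⟩ hp
    rw [Function.mem_support] at hp
    have h1 := left_ne_zero_of_mul hp
    have h2 := right_ne_zero_of_mul hp
    simp only [Finset.coe_image, Set.mem_image]
    refine ⟨⟨(γ₁, γ - γ₁), n₁⟩, ?_, rfl⟩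
    simp only [Finset.coe_sigma, Set.mem_sigma_iff, Finset.mem_coe, hs, Finset.mem_antidiagonal,
      HahnSeries.mem_support, Finsupp.mem_support_iff]
    refine ⟨⟨fun h => h1 ?_, fun h => h2 ?_, by ring⟩, h1⟩
    · simp [co, h]
    · simp [co, h]

/-- `f'` is `f` after the substitution `w ↦ τ ^ t w`, multiplied by `τ ^ α w ^ k`. -/
def Sh (t α : ℝ) (k : ℤ) (f f' : R0) : Prop :=
  ∀ (γ : ℝ) (n : ℤ), co f' (γ + t * n + α) (n + k) = co f γ n

lemma Sh.zero (t α : ℝ) (k : ℤ) : Sh t α k 0 0 := fun _ _ => by rw [co_zero, co_zero]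

lemma Sh.add {t α : ℝ} {k : ℤ} {f f' g g' : R0} (hf : Sh t α k f f') (hg : Sh t α k g g') :
    Sh t α k (f + g) (f' + g') := fun γ n => by rw [co_add, co_add, hf, hg]

lemma Sh.sum {t α : ℝ} {k : ℤ} {ι : Type} (s : Finset ι) {f f' : ι → R0}
    (h : ∀ i ∈ s, Sh t α k (f i) (f' i)) : Sh t α k (∑ i ∈ s, f i) (∑ i ∈ s, f' i) := by
  classical
  induction s using Finset.induction_on with
  | empty => simpa using Sh.zero t α k
  | insert a s ha ih =>
    rw [Finset.sum_insert ha, Finset.sum_insert ha]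
    exact (h a (by simp)).add (ih fun i hi => h i (by simp [hi]))

lemma Sh.const (t : ℝ) (c : K0) : Sh t 0 0 (κ c) (κ c) := by
  intro γ n
  rw [co_κ, co_κ, add_zero, add_zero]
  split_ifs with h
  · simp [h]
  · rfl

lemma Sh.mul {t α α' : ℝ} {k k' : ℤ} {f f' g g' : R0} (hf : Sh t α k f f') (hg : Sh t α' k' g g') :
    Sh t (α + α') (k + k') (f * g) (f' * g') := by
  intro γ n
  rw [conv, conv]
  symm
  refine finsum_eq_of_bijective (fun p : ℝ × ℤ => (p.1 + t * p.2 + α, p.2 + k)) ?_ ?_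
  · constructor
    · rintro ⟨a, b⟩ ⟨a', b'⟩ h
      simp only [Prod.mk.injEq, add_left_inj] at h
      obtain ⟨h1, rfl⟩ := h
      simpa using h1
    · rintro ⟨a, b⟩
      refine ⟨(a - t * ((b - k : ℤ) : ℝ) - α, b - k), Prod.ext ?_ ?_⟩
      · simp only; ring
      · simp
  · rintro ⟨a, b⟩
    rw [← hf a b, ← hg (γ - a) (n - b)]
    congr 2
    · push_cast; ring
    · ring

lemma Sh.pow {t α : ℝ} {k : ℤ} {f f' : R0} (hf : Sh t α k f f') (n : ℕ) :
    Sh t (n * α) (n * k) (f ^ n) (f' ^ n) := by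
  induction n with
  | zero => simpa using Sh.const t 1
  | succ n ih =>
    have := ih.mul hf
    rw [pow_succ, pow_succ]
    convert this using 1 <;> push_cast <;> ring

lemma Sh.eq_zero_iff {t α : ℝ} {k : ℤ} {f f' : R0} (h : Sh t α k f f') : f = 0 ↔ f' = 0 := by
  constructor
  · rintro rfl
    refine eq_zero_of_co fun γ n => ?_
    have := h (γ - t * ((n - k : ℤ) : ℝ) - α) (n - k)
    rw [co_zero] at this
    rw [← this]
    congr 1 <;> ring
  · rintro rfl
    refine eq_zero_of_co fun γ n => ?_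
    rw [← h, co_zero]

/-- Homogenised evaluation of an affine polynomial of degree at most `D`. -/
noncomputable def hom {B : Type} [CommRing B] (φ : K0 →+* B) (θ : Fin 3 → B) (D : ℕ)
    (H : MvPolynomial (Fin 2) K0) : B :=
  ∑ s ∈ H.support, φ (H.coeff s) * (θ 0 ^ s 0 * θ 1 ^ s 1 * θ 2 ^ (D - s 0 - s 1))

lemma deg_le {K : Type} [CommRing K] {H : MvPolynomial (Fin 2) K} {D : ℕ} (h : H.totalDegree ≤ D)
    {s : Fin 2 →₀ ℕ} (hs : s ∈ H.support) : s 0 + s 1 ≤ D := by
  have := (MvPolynomial.le_totalDegree hs).trans h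
  rwa [Finsupp.sum_fintype _ _ (by simp), Fin.sum_univ_two] at this

lemma map_hom {B B' : Type} [CommRing B] [CommRing B'] (φ : K0 →+* B) (ψ : B →+* B')
    (θ : Fin 3 → B) (D : ℕ) (H : MvPolynomial (Fin 2) K0) :
    ψ (hom φ θ D H) = hom (ψ.comp φ) (fun i => ψ (θ i)) D H := by
  simp [hom]

lemma hom_eq {B : Type} [CommRing B] (φ : K0 →+* B) (θ : Fin 3 → B) (ι : B) (hι : θ 2 * ι = 1)
    {D : ℕ} {H : MvPolynomial (Fin 2) K0} (h : H.totalDegree ≤ D) :
    hom φ θ D H = θ 2 ^ D * MvPolynomial.eval₂Hom φ ![θ 0 * ι, θ 1 * ι] H := by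
  rw [MvPolynomial.coe_eval₂Hom, MvPolynomial.eval₂_eq', Finset.mul_sum, hom]
  refine Finset.sum_congr rfl fun s hs => ?_
  obtain ⟨c, hc⟩ := Nat.exists_eq_add_of_le (deg_le h hs)
  have e : D - s 0 - s 1 = c := by omega
  rw [e, hc, Fin.prod_univ_two]
  simp only [Matrix.cons_val_zero, Matrix.cons_val_one]
  have : θ 2 ^ (s 0 + s 1 + c) * (φ (H.coeff s) * ((θ 0 * ι) ^ s 0 * (θ 1 * ι) ^ s 1)) =
      φ (H.coeff s) * (θ 0 ^ s 0 * θ 1 ^ s 1 * θ 2 ^ c) * (θ 2 * ι) ^ (s 0 + s 1) := by ring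
  rw [this, hι, one_pow, mul_one]

lemma Sh.hom {t α : ℝ} {k : ℤ} {θ θ' : Fin 3 → R0} (hθ : ∀ i, Sh t α k (θ i) (θ' i))
    {D : ℕ} {H : MvPolynomial (Fin 2) K0} (h : H.totalDegree ≤ D) :
    Sh t (D * α) (D * k) (hom κ θ D H) (hom κ θ' D H) := by
  refine Sh.sum _ fun s hs => ?_
  obtain ⟨c, hc⟩ := Nat.exists_eq_add_of_le (deg_le h hs)
  have e : D - s 0 - s 1 = c := by omega
  have := (Sh.const t (H.coeff s)).mul
    ((((hθ 0).pow (s 0)).mul ((hθ 1).pow (s 1))).mul ((hθ 2).pow c))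
  rw [e]
  convert this using 1 <;> rw [hc] <;> push_cast <;> ring

/-- Theta function of degree `D` for the multiplier of valuation `η` (the period has
valuation `6`). -/
def Theta (η : ℝ) (D : ℕ) (f : R0) : Prop := Sh 6 (D * (-6 * η)) (D * 3) f f

lemma Theta.window {η : ℝ} {D : ℕ} {f : R0} (hf : Theta η D f) {ω : ℝ} (hω : LB ω f) {n : ℤ}
    (hn : co f ω n ≠ 0) : η * D ≤ n ∧ (n : ℝ) ≤ (η + 3) * D := by
  have key : ∀ γ m, co f γ m ≠ 0 → ω ≤ γ := by
    intro γ m h
    refine not_lt.mp fun hlt => h ?_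
    simp [co, hω γ hlt]
  constructor
  · rw [← hf ω n] at hn
    have := key _ _ hn
    nlinarith
  · have h := hf (ω - 6 * ((n - D * 3 : ℤ) : ℝ) + D * (6 * η)) (n - D * 3)
    have e1 : ω - 6 * ((n - D * 3 : ℤ) : ℝ) + D * (6 * η) + 6 * ((n - D * 3 : ℤ) : ℝ) +
      D * (-6 * η) = ω := by ring
    have e2 : n - D * 3 + D * 3 = n := by ring
    rw [e1, e2] at h
    rw [h] at hn
    have := key _ _ hn
    push_cast at this
    nlinarith

lemma Theta.vanish {η : ℝ} {f : R0} (hf : Theta η 3 f)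
    (h : ∀ n : Fin 9, ∀ γ, co f γ (n : ℕ) = 0) : f = 0 := by
  have step : ∀ n : ℤ, (∀ γ, co f γ n = 0) ↔ ∀ γ, co f γ (n + 9) = 0 := by
    intro n
    constructor
    · intro h1 γ
      have := hf (γ - 6 * n + 18 * η) n
      rw [h1] at this
      rw [← this]
      congr 1
      push_cast; ring
    · intro h1 γ
      rw [← hf γ n]
      exact h1 _
  have all : ∀ k : ℤ, ∀ n : Fin 9, ∀ γ, co f γ ((n : ℕ) + 9 * k) = 0 := by
    intro k n
    induction k using Int.induction_on with
    | zero => simpa using h n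
    | succ k ih =>
      have := (step _).1 ih
      convert this using 3
      ring
    | pred k ih =>
      refine (step _).2 ?_
      convert ih using 3
      ring
  refine eq_zero_of_co fun γ n => ?_
  have := all (n / 9) ⟨(n % 9).toNat, by omega⟩ γ
  convert this using 2
  simp only
  omega

lemma pwo_range (s : ℝ) : (Set.range fun n : ℤ => (n : ℝ) ^ 2 - s * n).IsPWO := by
  refine Set.IsWF.isPWO ?_
  rw [Set.isWF_iff_no_descending_seq]
  intro f hf hmem
  choose g hg using hmem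
  have hinj : Function.Injective g := by
    intro a b hab
    apply hf.injective
    have := (hg a).symm.trans (hab ▸ hg b)
    simpa using this
  obtain ⟨N, hN⟩ := exists_nat_gt (|s| + |f 0| + 1)
  have hfin : (Set.range g).Finite := by
    refine (Set.finite_Icc (-(N : ℤ)) N).subset ?_
    rintro _ ⟨a, rfl⟩
    have h1 : ((g a : ℤ) : ℝ) ^ 2 - s * g a ≤ f 0 := by
      have := hg a
      simp only at this
      rw [this]
      exact hf.antitone (Nat.zero_le a)
    have h2 := le_abs_self (f 0)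
    have h3 := le_abs_self s
    have h4 := neg_abs_le s
    have h5 := abs_nonneg (f 0)
    have h6 := abs_nonneg s
    constructor
    · by_contra hc
      have : ((g a : ℤ) : ℝ) < -(N : ℝ) := by exact_mod_cast not_le.mp hc
      nlinarith
    · by_contra hc
      have : (N : ℝ) < ((g a : ℤ) : ℝ) := by exact_mod_cast not_le.mp hc
      nlinarith
  exact Set.infinite_range_of_injective hinj hfin

lemma fin_fiber (s γ : ℝ) : {n : ℤ | (n : ℝ) ^ 2 - s * n = γ}.Finite := by
  obtain ⟨N, hN⟩ := exists_nat_gt (|s| + |γ| + 1)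
  refine (Set.finite_Icc (-(N : ℤ)) N).subset ?_
  intro n hn
  have h1 : (n : ℝ) ^ 2 - s * n = γ := hn
  have h2 := le_abs_self γ
  have h3 := le_abs_self s
  have h4 := neg_abs_le s
  have h5 := abs_nonneg γ
  have h6 := abs_nonneg s
  constructor
  · by_contra hc
    have : (n : ℝ) < -(N : ℝ) := by exact_mod_cast not_le.mp hc
    nlinarith
  · by_contra hc
    have : (N : ℝ) < (n : ℝ) := by exact_mod_cast not_le.mp hc
    nlinarith

open Classical in
/-- The three basic theta functions `∑ τ ^ (n² - s n) w ^ n`, over `n ≡ i` modulo `3`. -/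
noncomputable def th (s : ℝ) (i : Fin 3) : R0 where
  coeff γ := AddMonoidAlgebra.ofCoeff (Finsupp.ofSupportFinite
    (fun n : ℤ => if n % 3 = (i : ℕ) ∧ (n : ℝ) ^ 2 - s * n = γ then (1 : ℂ) else 0)
    ((fin_fiber s γ).subset fun n hn => by
      by_contra hc
      exact hn (if_neg fun h => hc h.2)))
  isPWO_support' := (pwo_range s).mono fun γ hγ => by
    by_contra hc
    apply hγ
    ext n
    simp only [Finsupp.ofSupportFinite_coe, AddMonoidAlgebra.coeff_zero, Finsupp.coe_zero,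
      Pi.zero_apply]
    exact if_neg fun h => hc ⟨n, h.2⟩

open Classical in
lemma co_th (s : ℝ) (i : Fin 3) (γ : ℝ) (n : ℤ) :
    co (th s i) γ n = if n % 3 = (i : ℕ) ∧ (n : ℝ) ^ 2 - s * n = γ then 1 else 0 := rfl

lemma sh_th (s t : ℝ) (i : Fin 3) : Sh t 0 0 (th s i) (th (s - t) i) := by
  intro γ n
  rw [co_th, co_th, add_zero, add_zero]
  refine if_congr (and_congr Iff.rfl ?_) rfl rfl
  constructor <;> intro h <;> linarith

lemma theta_th (η : ℝ) (i : Fin 3) : Sh 6 (-6 * η) 3 (th (2 * η + 3) i) (th (2 * η + 3) i) := by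
  intro γ n
  rw [co_th, co_th]
  refine if_congr (and_congr (by omega) ?_) rfl rfl
  push_cast
  constructor <;> intro h <;> linarith

lemma theta_hom (η : ℝ) {D : ℕ} {H : MvPolynomial (Fin 2) K0} (h : H.totalDegree ≤ D) :
    Theta η D (hom κ (th (2 * η + 3)) D H) := Sh.hom (theta_th η) h

lemma hom_eq_zero_iff (s s' : ℝ) {D : ℕ} {H : MvPolynomial (Fin 2) K0} (h : H.totalDegree ≤ D) :
    hom κ (th s) D H = 0 ↔ hom κ (th s') D H = 0 := by
  have := Sh.hom (sh_th s (s - s')) h
  rw [sub_sub_cancel] at this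
  exact this.eq_zero_iff

end Pool.Agent.P.MP_8707bd_ag.Tate
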