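import Mathlib
import Pool.Agent.P.MP_8707bd_ag.Tate.Sh
import Pool.Agent.P.MP_8707bd_ag.All.Glue

/-!
Degeneration to the normal cone of a plane curve, and multiplicative filtrations
(helper file only).
-/

namespace Pool.Agent.P.MP_8707bd_ag.Tate

open MvPolynomial
open Pool.Agent.P.MP_8707bd_ag.All.Glue (cf coeff_cf cf_add)

section Expansion

variable {K B : Type} [Field K] [CommRing B] (φ : K →+* B) (x₀ x₁ z : B)

/-- Substitution of the point with coordinates x₀ and x₁ + ε z, as a polynomial in ε. -/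
noncomputable def sub0 : MvPolynomial (Fin 2) K →+* Polynomial B :=
  eval₂Hom (Polynomial.C.comp φ)
    ![Polynomial.C x₀, Polynomial.C x₁ + Polynomial.C z * Polynomial.X]

/-- The same substitution in a polynomial whose coefficients are Laurent series in ε. -/
noncomputable def sub1 : MvPolynomial (Fin 2) (HahnSeries ℤ K) →+* HahnSeries ℤ B :=
  eval₂Hom (hmap φ) ![HahnSeries.C x₀, HahnSeries.C x₁ + HahnSeries.single 1 z]

lemma sub0_coeff (G : MvPolynomial (Fin 2) K) :
    (sub0 φ x₀ x₁ z G).coeff 0 = eval₂Hom φ ![x₀, x₁] G ∧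
    (sub0 φ x₀ x₁ z G).coeff 1 = z * eval₂Hom φ ![x₀, x₁] (pderiv 1 G) := by
  induction G using MvPolynomial.induction_on with
  | C a => simp [sub0]
  | add f g hf hg => simp only [map_add, Polynomial.coeff_add, hf.1, hf.2, hg.1, hg.2, mul_add,
      and_self]
  | mul_X f k hf =>
    rw [map_mul, Polynomial.mul_coeff_zero, Polynomial.mul_coeff_one, hf.1, hf.2,
      Derivation.leibniz]
    fin_cases k
    · simp [sub0]
      ring
    · simp [sub0]
      ring

lemma coeff_mul_poly (y : HahnSeries ℤ B) (p : Polynomial B) (L : ℕ) (hL : p.natDegree < L)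
    (a : ℤ) :
    (y * Polynomial.eval₂RingHom HahnSeries.C (HahnSeries.single (1 : ℤ) (1 : B)) p).coeff a =
      ∑ l ∈ Finset.range L, y.coeff (a - l) * p.coeff l := by
  conv_lhs => rw [p.as_sum_range' L hL]
  rw [map_sum, Finset.mul_sum, HahnSeries.coeff_sum]
  refine Finset.sum_congr rfl fun l _ => ?_
  rw [Polynomial.coe_eval₂RingHom, Polynomial.eval₂_monomial, HahnSeries.single_pow,
    HahnSeries.C_apply, HahnSeries.single_mul_single, HahnSeries.coeff_mul_single]
  simp

lemma expansion (F : MvPolynomial (Fin 2) (HahnSeries ℤ K)) : ∃ L₀ : ℕ, ∀ L, L₀ ≤ L → ∀ a : ℤ,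
    (sub1 φ x₀ x₁ z F).coeff a =
      ∑ l ∈ Finset.range L, (sub0 φ x₀ x₁ z (cf (a - l) F)).coeff l := by
  classical
  induction F using MvPolynomial.induction_on' with
  | monomial s c =>
    refine ⟨(sub0 φ x₀ x₁ z (monomial s 1)).natDegree + 1, fun L hL a => ?_⟩
    have e1 : sub1 φ x₀ x₁ z (monomial s c) = hmap φ c *
        Polynomial.eval₂RingHom HahnSeries.C (HahnSeries.single (1 : ℤ) (1 : B))
          (sub0 φ x₀ x₁ z (monomial s 1)) := by
      rw [sub1, sub0, eval₂Hom_monomial, eval₂Hom_monomial, Finsupp.prod_fintype _ _ (by simp),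
        Finsupp.prod_fintype _ _ (by simp), Fin.prod_univ_two, Fin.prod_univ_two]
      simp only [map_mul, map_pow, map_one, one_mul, Matrix.cons_val_zero, Matrix.cons_val_one,
        map_add, Polynomial.coe_eval₂RingHom, Polynomial.eval₂_C, Polynomial.eval₂_X,
        HahnSeries.C_apply, HahnSeries.single_mul_single, zero_add, mul_one]
    rw [e1, coeff_mul_poly _ _ L hL]
    refine Finset.sum_congr rfl fun l _ => ?_
    have e2 : cf (a - l) (monomial s c) = C (c.coeff (a - l)) * monomial s 1 := by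
      ext t
      rw [coeff_cf, C_mul_monomial, mul_one, coeff_monomial, coeff_monomial]
      split_ifs <;> simp
    rw [e2, map_mul, hmap_coeff]
    simp [sub0]
  | add F G hF hG =>
    obtain ⟨L₁, h₁⟩ := hF
    obtain ⟨L₂, h₂⟩ := hG
    refine ⟨max L₁ L₂, fun L hL a => ?_⟩
    rw [map_add, HahnSeries.coeff_add, h₁ L (le_of_max_le_left hL), h₂ L (le_of_max_le_right hL),
      ← Finset.sum_add_distrib]
    simp only [cf_add, map_add, Polynomial.coeff_add]

lemma coeff_pow_mul {g : MvPolynomial (Fin 2) K} (hg : eval₂Hom φ ![x₀, x₁] g = 0)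
    (H : MvPolynomial (Fin 2) K) {l j : ℕ} (h : l ≤ j) :
    (sub0 φ x₀ x₁ z (g ^ j * H)).coeff l =
      if l = j then (z * eval₂Hom φ ![x₀, x₁] (pderiv 1 g)) ^ l * eval₂Hom φ ![x₀, x₁] H
      else 0 := by
  obtain ⟨q, hq⟩ : Polynomial.X ∣ sub0 φ x₀ x₁ z g :=
    Polynomial.X_dvd_iff.2 ((sub0_coeff φ x₀ x₁ z g).1.trans hg)
  have h1 : q.coeff 0 = z * eval₂Hom φ ![x₀, x₁] (pderiv 1 g) := by
    rw [← (sub0_coeff φ x₀ x₁ z g).2, hq, Polynomial.coeff_X_mul]
  rw [map_mul, map_pow, hq, mul_pow, mul_assoc, Polynomial.coeff_X_pow_mul']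
  by_cases e : l = j
  · subst e
    rw [if_pos le_rfl, if_pos rfl, Nat.sub_self, Polynomial.mul_coeff_zero,
      (sub0_coeff φ x₀ x₁ z H).1, ← h1, ← Polynomial.constantCoeff_apply, map_pow]
    rfl
  · rw [if_neg (by omega), if_neg e]

end Expansion

theorem cone {K : Type} [Field K] (g : MvPolynomial (Fin 2) K)
    (Q : ℕ → MvPolynomial (Fin 2) K → Prop) (d : ℕ)
    (hfac : ∀ G : MvPolynomial (Fin 2) K, G ≠ 0 → G.totalDegree ≤ d →
      ∃ j H, G = g ^ j * H ∧ j ≤ d ∧ Q j H)
    (F : MvPolynomial (Fin 2) (HahnSeries ℤ K)) (hF : F ≠ 0) (hd : F.totalDegree ≤ d) :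
    ∃ (a : ℤ) (Hl : ℕ → MvPolynomial (Fin 2) K), (∀ l, Hl l = 0 ∨ Q l (Hl l)) ∧
      (∃ l ≤ d, Q l (Hl l)) ∧
      ∀ (B : Type) [CommRing B] (φ : K →+* B) (x₀ x₁ z : B), eval₂Hom φ ![x₀, x₁] g = 0 →
        (sub1 φ x₀ x₁ z F).coeff a = ∑ l ∈ Finset.range (d + 1),
          (z * eval₂Hom φ ![x₀, x₁] (pderiv 1 g)) ^ l * eval₂Hom φ ![x₀, x₁] (Hl l) := by
  classical
  have hdeg : ∀ e, (cf e F).totalDegree ≤ d := by
    intro e
    refine Finset.sup_le fun s hs => (le_totalDegree (p := F) ?_).trans hd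
    rw [mem_support_iff] at hs ⊢
    intro h
    apply hs
    rw [coeff_cf, h]
    rfl
  have h1 : ∀ e, cf e F ≠ 0 → ∃ j H, cf e F = g ^ j * H ∧ j ≤ d ∧ Q j H :=
    fun e he => hfac _ he (hdeg e)
  choose! J H hH hJ hQ using h1
  have hne : F.support.Nonempty := by simpa using hF
  obtain ⟨s₀, hs₀, hmin⟩ := Finset.exists_min_image _ (fun s => (F.coeff s).order) hne
  have hbdd : ∃ b : ℤ, ∀ a : ℤ, (∃ e, cf e F ≠ 0 ∧ a = e + J e) → b ≤ a := by
    refine ⟨(F.coeff s₀).order, ?_⟩
    rintro _ ⟨e, he, rfl⟩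
    obtain ⟨s, hs⟩ := ne_zero_iff.1 he
    rw [coeff_cf] at hs
    have h2 := HahnSeries.order_le_of_coeff_ne_zero hs
    have h3 := hmin s (mem_support_iff.2 (HahnSeries.ne_zero_of_coeff_ne_zero hs))
    omega
  have hinh : ∃ a : ℤ, ∃ e, cf e F ≠ 0 ∧ a = e + J e := by
    refine ⟨_, (F.coeff s₀).order, ne_zero_iff.2 ⟨s₀, ?_⟩, rfl⟩
    rw [coeff_cf]
    exact HahnSeries.coeff_order_eq_zero.not.2 (mem_support_iff.1 hs₀)
  obtain ⟨a, ⟨e₀, he₀, ha⟩, hleast⟩ := Int.exists_least_of_bdd hbdd hinh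
  refine ⟨a, fun l => if cf (a - l) F ≠ 0 ∧ J (a - l) = l then H (a - l) else 0,
    fun l => ?_, ⟨J e₀, hJ _ he₀, ?_⟩, fun B _ φ x₀ x₁ z hg => ?_⟩
  · by_cases h : cf (a - l) F ≠ 0 ∧ J (a - l) = l
    · right
      simp only [if_pos h]
      have := hQ _ h.1
      rwa [h.2] at this
    · left
      simp only [if_neg h]
  · have e : a - J e₀ = e₀ := by omega
    simp only [e]
    rw [if_pos ⟨he₀, trivial⟩]
    exact hQ _ he₀
  · obtain ⟨L₀, hL⟩ := expansion φ x₀ x₁ z F
    rw [hL (max L₀ (d + 1)) (le_max_left _ _)]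
    beta_reduce
    rw [Finset.sum_subset (Finset.range_mono (le_max_right L₀ (d + 1)))]
    · refine Finset.sum_congr rfl fun l _ => ?_
      by_cases h : cf (a - l) F = 0
      · simp [h]
      have h2 := hleast _ ⟨a - l, h, rfl⟩
      conv_lhs => rw [hH _ h]
      rw [coeff_pow_mul φ x₀ x₁ z hg _ (by omega)]
      by_cases h3 : l = J (a - l)
      · rw [if_pos h3, if_pos ⟨h, h3.symm⟩]
      · rw [if_neg h3, if_neg fun h4 => h3 h4.2.symm, map_zero, mul_zero]
    · intro l _ hl
      rw [if_neg, map_zero, mul_zero]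
      rintro ⟨h2, h3⟩
      have := hJ _ h2
      simp at hl
      omega

/-- A multiplicative filtration of a commutative ring. -/
structure Filt (B : Type) [CommRing B] where
  /-- The elements of level at least `k`. -/
  V : ℕ → B → Prop
  top : ∀ x, V 0 x
  zero : ∀ k, V k 0
  add : ∀ {k x y}, V k x → V k y → V k (x + y)
  mul : ∀ {k l x y}, V k x → V l y → V (k + l) (x * y)
  anti : ∀ {k l x}, k ≤ l → V l x → V k x

namespace Filt

variable {B : Type} [CommRing B] (W : Filt B)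

lemma sum {ι : Type} {k : ℕ} (s : Finset ι) {f : ι → B} (h : ∀ i ∈ s, W.V k (f i)) :
    W.V k (∑ i ∈ s, f i) :=
  Finset.sum_induction f (W.V k) (fun _ _ => W.add) (W.zero k) h

lemma pow_mem {U : Type} [CommRing U] (f : U →+* B) (I : Ideal U) (h : ∀ a ∈ I, W.V 1 (f a))
    (m : ℕ) : ∀ a ∈ I ^ m, W.V m (f a) := by
  induction m with
  | zero => exact fun a _ => W.top _
  | succ m ih =>
    intro a ha
    rw [pow_succ] at ha
    refine Submodule.mul_induction_on ha (fun x hx y hy => ?_) fun x y hx hy => ?_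
    · rw [map_mul]
      exact W.mul (ih x hx) (h y hy)
    · rw [map_add]
      exact W.add hx hy

/-- The induced filtration of Hahn series. -/
def hahn (Γ : Type) [LinearOrder Γ] [AddCommGroup Γ] [IsOrderedAddMonoid Γ] :
    Filt (HahnSeries Γ B) where
  V k x := ∀ γ, W.V k (x.coeff γ)
  top _ _ := W.top _
  zero k _ := W.zero k
  add hx hy γ := W.add (hx γ) (hy γ)
  mul hx hy γ := by
    rw [HahnSeries.coeff_mul]
    exact W.sum _ fun ij _ => W.mul (hx _) (hy _)
  anti h hx γ := W.anti h (hx γ)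

/-- The induced filtration of polynomials, the variable having level one. -/
def poly : Filt (Polynomial B) where
  V k p := ∀ i, W.V (k - i) (p.coeff i)
  top _ i := by rw [Nat.zero_sub]; exact W.top _
  zero k i := by rw [Polynomial.coeff_zero]; exact W.zero _
  add hx hy i := by rw [Polynomial.coeff_add]; exact W.add (hx i) (hy i)
  mul hx hy i := by
    rw [Polynomial.coeff_mul]
    refine W.sum _ fun ij hij => W.anti ?_ (W.mul (hx _) (hy _))
    rw [Finset.HasAntidiagonal.mem_antidiagonal] at hij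
    omega
  anti h hx i := W.anti (by omega) (hx i)

end Filt

/-- The filtration by powers of an element. -/
def powFilt {B : Type} [CommRing B] (x : B) : Filt B where
  V k a := x ^ k ∣ a
  top a := by simp
  zero k := by simp
  add := dvd_add
  mul hx hy := by rw [pow_add]; exact mul_dvd_mul hx hy
  anti h hx := (pow_dvd_pow _ h).trans hx

end Pool.Agent.P.MP_8707bd_ag.Tate
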