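import Mathlib
import Pool.Agent.P.MP_8707bd_ag.Tate.Sh

/-!
The plane cubic parametrised by the three basic theta functions (helper file only).
-/

namespace Pool.Agent.P.MP_8707bd_ag.Tate

open MvPolynomial

lemma two_exps {R : Type} [CommRing R] [IsDomain R] {P U : Polynomial R} (hP : P ≠ 0)
    (hU : U ∣ P) (h0 : U.coeff 0 ≠ 0) :
    ∃ n₁ n₂, P.coeff n₁ ≠ 0 ∧ P.coeff n₂ ≠ 0 ∧ n₁ + U.natDegree ≤ n₂ := by
  obtain ⟨Q, rfl⟩ := hU
  have hU0 := left_ne_zero_of_mul hP
  have hQ0 := right_ne_zero_of_mul hP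
  refine ⟨(U * Q).natTrailingDegree, (U * Q).natDegree,
    Polynomial.coeff_natTrailingDegree_eq_zero.not.2 hP, Polynomial.leadingCoeff_ne_zero.2 hP, ?_⟩
  rw [Polynomial.natTrailingDegree_mul hU0 hQ0, Polynomial.natDegree_mul hU0 hQ0,
    Polynomial.natTrailingDegree_eq_zero.2 (Or.inr h0)]
  have := Polynomial.natTrailingDegree_le_natDegree Q
  omega

lemma nodal_indep (S : Finset (Fin 2 →₀ ℕ)) (c : (Fin 2 →₀ ℕ) → ℂ) (D : ℕ)
    (h1 : ∀ s ∈ S, s 1 ≤ 2) (h2 : ∀ s ∈ S, s 0 + s 1 ≤ D)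
    (h : ∑ s ∈ S, Polynomial.C (c s) * ((1 + Polynomial.X ^ 3) ^ s 0 * Polynomial.X ^ s 1 *
      (Polynomial.X ^ 2) ^ (D - s 0 - s 1)) = (0 : Polynomial ℂ)) : ∀ s ∈ S, c s = 0 := by
  classical
  by_contra hc
  push Not at hc
  have hne : (S.filter fun s => c s ≠ 0).Nonempty := by
    obtain ⟨s, hs, hs'⟩ := hc
    exact ⟨s, Finset.mem_filter.2 ⟨hs, hs'⟩⟩
  obtain ⟨s₀, hs₀, hmin⟩ := Finset.exists_min_image _ (fun s => s 0) hne
  rw [Finset.mem_filter] at hs₀
  set U : Polynomial ℂ := 1 + Polynomial.X ^ 3 with hU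
  have hU0 : U.coeff 0 ≠ 0 := by simp [hU]
  have hUne : U ≠ 0 := fun h => hU0 (by simp [h])
  have hUd : U.natDegree = 3 := by rw [hU]; compute_degree!
  set P : Polynomial ℂ := ∑ s ∈ S with s 0 = s₀ 0,
    Polynomial.monomial (s 1 + 2 * (D - s 0 - s 1)) (c s) with hP
  have hdvd : U ∣ P := by
    rw [← mul_dvd_mul_iff_left (pow_ne_zero (s₀ 0) hUne), ← pow_succ]
    rw [← Finset.sum_filter_add_sum_filter_not S (fun s => s 0 = s₀ 0), add_eq_zero_iff_eq_neg] at h
    have e : U ^ s₀ 0 * P = ∑ s ∈ S with s 0 = s₀ 0, Polynomial.C (c s) *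
        (U ^ s 0 * Polynomial.X ^ s 1 * (Polynomial.X ^ 2) ^ (D - s 0 - s 1)) := by
      rw [hP, Finset.mul_sum]
      refine Finset.sum_congr rfl fun s hs => ?_
      rw [(Finset.mem_filter.1 hs).2, ← Polynomial.C_mul_X_pow_eq_monomial]
      ring
    rw [e, h, dvd_neg]
    refine Finset.dvd_sum fun s hs => ?_
    rw [Finset.mem_filter] at hs
    by_cases hcs : c s = 0
    · simp [hcs]
    have := hmin s (Finset.mem_filter.2 ⟨hs.1, hcs⟩)
    have h3 : s₀ 0 + 1 ≤ s 0 := by have := hs.2; omega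
    exact (((pow_dvd_pow U h3).mul_right _).mul_right _).mul_left _
  have hco : P.coeff (s₀ 1 + 2 * (D - s₀ 0 - s₀ 1)) = c s₀ := by
    rw [hP, Polynomial.finsetSum_coeff, Finset.sum_eq_single s₀]
    · simp
    · intro s hs hne
      rw [Finset.mem_filter] at hs
      rw [Polynomial.coeff_monomial, if_neg]
      intro h3
      apply hne
      have h4 := h2 s hs.1
      have h5 := h2 s₀ hs₀.1
      have h6 := hs.2
      ext i
      fin_cases i
      · exact h6
      · change s 1 = s₀ 1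
        omega
    · intro h3
      exact (h3 (Finset.mem_filter.2 ⟨hs₀.1, rfl⟩)).elim
  have hP0 : P ≠ 0 := fun h => hs₀.2 (by rw [← hco, h]; simp)
  have hsupp : ∀ n, P.coeff n ≠ 0 → 2 * (D - s₀ 0) ≤ n + 2 ∧ n ≤ 2 * (D - s₀ 0) := by
    intro n hn
    rw [hP, Polynomial.finsetSum_coeff] at hn
    obtain ⟨s, hs, hs'⟩ := Finset.exists_ne_zero_of_sum_ne_zero hn
    rw [Finset.mem_filter] at hs
    rw [Polynomial.coeff_monomial] at hs'
    have h3 : s 1 + 2 * (D - s 0 - s 1) = n := by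
      by_contra h3
      exact hs' (if_neg h3)
    have h4 := h1 s hs.1
    have h5 := h2 s hs.1
    have h6 := hs.2
    omega
  obtain ⟨n₁, n₂, e1, e2, e3⟩ := two_exps hP0 hdvd hU0
  have := hsupp _ e1
  have := hsupp _ e2
  omega

lemma cast_e (n c : ℤ) : (n : ℝ) ^ 2 - 3 * n = (c : ℝ) ↔ n ^ 2 - 3 * n = c := by
  constructor <;> intro h <;> exact_mod_cast h

lemma lb_th (i : Fin 3) (c : ℤ) (h : ∀ n : ℤ, n % 3 = (i : ℕ) → c ≤ n ^ 2 - 3 * n) :
    LB (c : ℝ) (th 3 i) := by
  intro γ hγ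
  ext n
  change co (th 3 i) γ n = 0
  rw [co_th, if_neg]
  rintro ⟨h1, h2⟩
  have h3 : (c : ℝ) ≤ (n : ℝ) ^ 2 - 3 * n := by exact_mod_cast h n h1
  linarith

lemma lead_th0 : Lead ((0 : ℤ) : ℝ) (Polynomial.toLaurent (1 + Polynomial.X ^ 3)) (th 3 0) := by
  refine ⟨lb_th 0 0 fun n hn => ?_, ?_⟩
  · have : n ≤ 0 ∨ 3 ≤ n := by simp at hn; omega
    rcases this with h | h <;> nlinarith
  · ext n
    change co (th 3 0) _ n = _
    rw [co_th, map_add, map_one, Polynomial.toLaurent_X_pow, ← LaurentPolynomial.T_zero]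
    simp only [cast_e, AddMonoidAlgebra.coeff_add, Finsupp.add_apply, LaurentPolynomial.T_apply]
    by_cases h0 : n = 0
    · simp [h0]
    by_cases h3 : n = 3
    · simp [h3]
    rw [if_neg, if_neg (Ne.symm h0), if_neg (by exact_mod_cast Ne.symm h3), add_zero]
    rintro ⟨-, h⟩
    have : n * (n - 3) = 0 := by linarith
    rcases mul_eq_zero.1 this with h | h <;> omega

lemma two_le_e (n : ℤ) : -2 ≤ n ^ 2 - 3 * n := by
  have : n ≤ 1 ∨ 2 ≤ n := by omega
  rcases this with h | h <;> nlinarith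

lemma lead_th1 : Lead ((-2 : ℤ) : ℝ) (Polynomial.toLaurent Polynomial.X) (th 3 1) := by
  refine ⟨lb_th 1 (-2) fun n _ => two_le_e n, ?_⟩
  ext n
  change co (th 3 1) _ n = _
  rw [co_th, Polynomial.toLaurent_X]
  simp only [cast_e, LaurentPolynomial.T_apply]
  refine if_congr ⟨?_, ?_⟩ rfl rfl
  · rintro ⟨h1, h⟩
    have : (n - 1) * (n - 2) = 0 := by linarith
    simp at h1
    rcases mul_eq_zero.1 this with h | h <;> omega
  · rintro rfl
    simp

lemma lead_th2 : Lead ((-2 : ℤ) : ℝ) (Polynomial.toLaurent (Polynomial.X ^ 2)) (th 3 2) := by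
  refine ⟨lb_th 2 (-2) fun n _ => two_le_e n, ?_⟩
  ext n
  change co (th 3 2) _ n = _
  rw [co_th, Polynomial.toLaurent_X_pow]
  simp only [cast_e, LaurentPolynomial.T_apply]
  refine if_congr ⟨?_, ?_⟩ rfl rfl
  · rintro ⟨h1, h⟩
    have : (n - 1) * (n - 2) = 0 := by linarith
    simp at h1
    rcases mul_eq_zero.1 this with h | h <;> omega
  · rintro rfl
    simp

lemma unit_th2 : IsUnit (th 3 2) := by
  refine lead_th2.isUnit ?_
  rw [Polynomial.toLaurent_X_pow]
  exact LaurentPolynomial.isUnit_T _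

lemma indep {D : ℕ} {H : MvPolynomial (Fin 2) K0} (h2 : H.totalDegree ≤ D)
    (h1 : H.degreeOf 1 ≤ 2) (h : hom κ (th 3) D H = 0) : H = 0 := by
  by_contra hH
  have hne : H.support.Nonempty := by simpa using hH
  set o : (Fin 2 →₀ ℕ) → ℝ := fun s =>
    s 0 • ((0 : ℤ) : ℝ) + s 1 • ((-2 : ℤ) : ℝ) + (D - s 0 - s 1) • ((-2 : ℤ) : ℝ) with ho
  obtain ⟨s₀, hs₀, hmin⟩ := Finset.exists_min_image _ (fun s => (H.coeff s).order + o s) hne
  set ω := (H.coeff s₀).order + o s₀ with hω
  have key : ∀ s ∈ H.support,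
      (κ (H.coeff s) * (th 3 0 ^ s 0 * th 3 1 ^ s 1 * th 3 2 ^ (D - s 0 - s 1))).coeff ω =
      Polynomial.toLaurent (Polynomial.C ((H.coeff s).coeff (ω - o s)) *
        ((1 + Polynomial.X ^ 3) ^ s 0 * Polynomial.X ^ s 1 *
          (Polynomial.X ^ 2) ^ (D - s 0 - s 1))) := by
    intro s hs
    have l1 : Lead (ω - o s) ((H.coeff s).coeff (ω - o s)) (H.coeff s) := by
      refine ⟨fun γ hγ => HahnSeries.coeff_eq_zero_of_lt_order ?_, rfl⟩
      have := hmin s hs
      linarith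
    have l2 := (l1.hmap (LaurentPolynomial.C : ℂ →+* A)).mul
      (((lead_th0.pow (s 0)).mul (lead_th1.pow (s 1))).mul (lead_th2.pow (D - s 0 - s 1)))
    have l3 := l2.2
    rw [show ω - o s + _ = ω from sub_add_cancel _ _] at l3
    rw [κ, l3]
    simp only [map_mul, map_pow, Polynomial.toLaurent_C]
  have h3 := congrArg (fun f : R0 => f.coeff ω) h
  simp only [hom, HahnSeries.coeff_sum, HahnSeries.coeff_zero] at h3
  rw [Finset.sum_congr rfl key, ← map_sum, Polynomial.toLaurent_eq_zero] at h3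
  have h4 := nodal_indep _ (fun s => (H.coeff s).coeff (ω - o s)) D
    (fun s hs => (le_degreeOf_of_mem_support 1 hs).trans h1) (fun s hs => deg_le h2 hs) h3 s₀ hs₀
  simp only [hω, add_sub_cancel_right] at h4
  exact mem_support_iff.1 hs₀ (HahnSeries.coeff_order_eq_zero.1 h4)

/-- The coefficient of `w ^ n`. -/
noncomputable def prj (n : ℤ) (f : R0) : K0 where
  coeff γ := co f γ n
  isPWO_support' := f.isPWO_support.mono fun γ hγ h => hγ (by simp [co, h])

lemma prj_sum {ι : Type} (n : ℤ) (s : Finset ι) (f : ι → R0) :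
    prj n (∑ i ∈ s, f i) = ∑ i ∈ s, prj n (f i) := by
  ext γ
  simp [prj, co, HahnSeries.coeff_sum]

lemma prj_mul (n : ℤ) (c : K0) (f : R0) : prj n (κ c * f) = c * prj n f := by
  ext γ
  have s1 : (κ c).support ⊆ c.support := fun γ hγ h => hγ (by simp [κ, hmap_coeff, h])
  have s2 : (prj n f).support ⊆ f.support := fun γ hγ h => hγ (by simp [prj, co, h])
  rw [HahnSeries.coeff_mul_right' f.isPWO_support s2]
  change ((κ c * f).coeff γ).coeff n = _
  rw [HahnSeries.coeff_mul_left' c.isPWO_support s1, AddMonoidAlgebra.coeff_sum,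
    Finsupp.finsetSum_apply]
  refine Finset.sum_congr rfl fun ij _ => ?_
  rw [κ, hmap_coeff, ← LaurentPolynomial.smul_eq_C_mul]
  rfl

/-- The exponents of the ten cubic monomials. -/
def ex : Fin 10 → ℕ × ℕ :=
  ![(0, 0), (1, 0), (2, 0), (3, 0), (0, 1), (1, 1), (2, 1), (0, 2), (1, 2), (0, 3)]

lemma exists_rel : ∃ g : MvPolynomial (Fin 2) K0,
    g ≠ 0 ∧ g.totalDegree ≤ 3 ∧ hom κ (th 3) 3 g = 0 := by
  classical
  obtain ⟨ι, hι⟩ := unit_th2.exists_right_inv
  set mo : Fin 10 → (Fin 2 →₀ ℕ) := fun i =>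
    Finsupp.single 0 (ex i).1 + Finsupp.single 1 (ex i).2 with hmo
  have hinj : Function.Injective mo := by
    intro i j h
    have h0 := congrArg (fun s : Fin 2 →₀ ℕ => s 0) h
    have h1 := congrArg (fun s : Fin 2 →₀ ℕ => s 1) h
    simp [hmo] at h0 h1
    have : Function.Injective ex := by decide
    exact this (Prod.ext h0 h1)
  have hdeg : ∀ i (c : K0), (monomial (mo i) c).totalDegree ≤ 3 := by
    intro i c
    refine (totalDegree_monomial_le _ _).trans ?_
    rw [Finsupp.sum_fintype _ _ (by simp), Fin.sum_univ_two]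
    have : ∀ i, (ex i).1 + (ex i).2 ≤ 3 := by decide
    simpa [hmo] using this i
  set v : Fin 10 → Fin 9 → K0 := fun i n =>
    prj (n : ℕ) (hom κ (th 3) 3 (monomial (mo i) 1)) with hv
  have hdep : ¬ LinearIndependent K0 v := by
    intro h
    have := h.fintype_card_le_finrank
    simp at this
  obtain ⟨c, hc, i₀, hi₀⟩ := Fintype.not_linearIndependent_iff.1 hdep
  have hg : (∑ i, monomial (mo i) (c i)).totalDegree ≤ 3 :=
    totalDegree_finsetSum_le fun i _ => hdeg i _
  refine ⟨∑ i, monomial (mo i) (c i), fun h => hi₀ ?_, hg, ?_⟩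
  · have := congrArg (coeff (mo i₀)) h
    simpa [coeff_sum, coeff_monomial, hinj.eq_iff] using this
  · have ht : Theta 0 3 (hom κ (th 3) 3 (∑ i, monomial (mo i) (c i))) := by
      simpa using theta_hom 0 hg
    refine ht.vanish fun n γ => ?_
    have e : hom κ (th 3) 3 (∑ i, monomial (mo i) (c i)) =
        ∑ i, κ (c i) * hom κ (th 3) 3 (monomial (mo i) 1) := by
      rw [hom_eq κ _ ι hι hg, map_sum, Finset.mul_sum]
      refine Finset.sum_congr rfl fun i _ => ?_
      rw [hom_eq κ _ ι hι (hdeg i 1), ← mul_one (c i), ← C_mul_monomial, map_mul, eval₂Hom_C,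
        mul_one]
      ring
    change (prj (n : ℕ) _).coeff γ = 0
    rw [e, prj_sum]
    simp only [prj_mul]
    have := congrFun hc n
    simp only [Finset.sum_apply, Pi.smul_apply, smul_eq_mul, hv, Pi.zero_apply] at this
    rw [this]
    rfl

lemma division {K : Type} [CommRing K] (g' : MvPolynomial (Fin 2) K) (hg' : g'.degreeOf 1 ≤ 2)
    (n : ℕ) : ∀ F : MvPolynomial (Fin 2) K, F.degreeOf 1 ≤ n →
      ∃ H R : MvPolynomial (Fin 2) K, R.degreeOf 1 ≤ 2 ∧ F = (X 1 ^ 3 + g') * H + R := by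
  classical
  induction n with
  | zero => exact fun F hF => ⟨0, F, by omega, by simp⟩
  | succ n ih =>
    intro F hF
    by_cases hn : n + 1 ≤ 2
    · exact ⟨0, F, by omega, by simp⟩
    have hm : ∀ (s : Fin 2 →₀ ℕ) (c : K), (monomial s c).degreeOf 1 ≤ s 1 := by
      intro s c
      by_cases hc : c = 0
      · simp [hc]
      · exact (degreeOf_monomial_eq s 1 hc).le
    have key : ∀ s ∈ F.support, ∃ H R : MvPolynomial (Fin 2) K, R.degreeOf 1 ≤ 2 ∧
        monomial s (F.coeff s) = (X 1 ^ 3 + g') * H + R := by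
      intro s hs
      have h1 := (le_degreeOf_of_mem_support 1 hs).trans hF
      by_cases h2 : s 1 ≤ n
      · exact ih _ ((hm _ _).trans h2)
      have e : s = Finsupp.single 1 3 + (s - Finsupp.single 1 3) := by
        ext i
        fin_cases i
        · simp
        · simp; omega
      have h3 : (-(g' * monomial (s - Finsupp.single 1 3) (F.coeff s))).degreeOf 1 ≤ n := by
        rw [degreeOf_neg]
        refine (degreeOf_mul_le _ _ _).trans ?_
        have := hm (s - Finsupp.single 1 3) (F.coeff s)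
        simp at this
        omega
      obtain ⟨H, R, hR, hH⟩ := ih _ h3
      refine ⟨monomial (s - Finsupp.single 1 3) (F.coeff s) + H, R, hR, ?_⟩
      have e2 : monomial s (F.coeff s) =
          X 1 ^ 3 * monomial (s - Finsupp.single 1 3) (F.coeff s) := by
        rw [X_pow_eq_monomial, monomial_mul, one_mul, ← e]
      rw [e2]
      linear_combination hH
    choose! H R hR hH using key
    refine ⟨∑ s ∈ F.support, H s, ∑ s ∈ F.support, R s, ?_, ?_⟩
    · exact (degreeOf_sum_le _ _ _).trans (Finset.sup_le hR)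
    · rw [Finset.mul_sum, ← Finset.sum_add_distrib, ← Finset.sum_congr rfl hH]
      exact F.as_sum

theorem cubic (s : ℝ) : ∃ g : MvPolynomial (Fin 2) K0,
    g.totalDegree ≤ 3 ∧ hom κ (th s) 3 g = 0 ∧ (pderiv 1 g).totalDegree ≤ 3 ∧
    hom κ (th s) 3 (pderiv 1 g) ≠ 0 ∧ th s 2 ≠ 0 ∧
    ∀ (d : ℕ) (F : MvPolynomial (Fin 2) K0), F ≠ 0 → F.totalDegree ≤ d →
      ∃ (j : ℕ) (H : MvPolynomial (Fin 2) K0), F = g ^ j * H ∧ 3 * j ≤ d ∧
        H.totalDegree ≤ d - 3 * j ∧ hom κ (th s) (d - 3 * j) H ≠ 0 := by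
  classical
  obtain ⟨g₀, h0, hd0, hr0⟩ := exists_rel
  obtain ⟨ι, hι⟩ := unit_th2.exists_right_inv
  set ev := eval₂Hom κ ![th 3 0 * ι, th 3 1 * ι] with hev
  have hz : ∀ {D : ℕ} {H : MvPolynomial (Fin 2) K0}, H.totalDegree ≤ D →
      (hom κ (th s) D H = 0 ↔ ev H = 0) := by
    intro D H h
    rw [hom_eq_zero_iff s 3 h, hom_eq κ _ ι hι h, mul_eq_zero,
      or_iff_right (pow_ne_zero _ unit_th2.ne_zero)]
  have hind : ∀ H : MvPolynomial (Fin 2) K0, H.degreeOf 1 ≤ 2 → ev H = 0 → H = 0 := by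
    intro H h1 h
    refine indep le_rfl h1 ?_
    rw [hom_eq κ _ ι hι le_rfl, ← hev, h, mul_zero]
  have hev0 : ev g₀ = 0 := (hz hd0).1 ((hom_eq_zero_iff s 3 hd0).2 hr0)
  have top : ∀ t : Fin 2 →₀ ℕ, t 0 + t 1 ≤ 3 → ¬ t 1 ≤ 2 → t = Finsupp.single 1 3 := by
    intro t h1 h2
    ext i
    fin_cases i
    · simp; omega
    · simp; omega
  have hc : g₀.coeff (Finsupp.single 1 3) ≠ 0 := by
    intro h
    refine h0 (hind _ (degreeOf_le_iff.2 fun t ht => ?_) hev0)
    by_contra h2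
    rw [top t (deg_le hd0 ht) h2] at ht
    exact mem_support_iff.1 ht h
  set g := C (g₀.coeff (Finsupp.single 1 3))⁻¹ * g₀ with hg
  have hd : g.totalDegree ≤ 3 := by
    refine (totalDegree_mul _ _).trans ?_
    rw [totalDegree_C]
    omega
  have hevg : ev g = 0 := by rw [hg, map_mul, hev0, mul_zero]
  have hc1 : g.coeff (Finsupp.single 1 3) = 1 := by
    rw [hg, coeff_C_mul, inv_mul_cancel₀ hc]
  have hmem : Finsupp.single 1 3 ∈ g.support := by
    rw [mem_support_iff, hc1]; exact one_ne_zero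
  have hg0 : g ≠ 0 := fun h => by simp [h] at hmem
  have hd3 : g.totalDegree = 3 := by
    refine le_antisymm hd ?_
    simpa using le_totalDegree hmem
  have hg' : (g - X 1 ^ 3).degreeOf 1 ≤ 2 := by
    refine degreeOf_le_iff.2 fun t ht => ?_
    by_contra h2
    rw [mem_support_iff, coeff_sub, X_pow_eq_monomial, coeff_monomial] at ht
    by_cases h3 : Finsupp.single 1 3 = t
    · rw [if_pos h3, ← h3, hc1, sub_self] at ht
      exact ht rfl
    · rw [if_neg h3, sub_zero] at ht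
      exact h3 (top t (deg_le hd (mem_support_iff.2 ht)) h2).symm
  have hp : ∀ t ∈ (pderiv 1 g).support, t 0 + t 1 ≤ 2 := by
    intro t ht
    rw [mem_support_iff, coeff_pderiv] at ht
    have := deg_le hd (mem_support_iff.2 (left_ne_zero_of_mul ht))
    simp at this
    omega
  have hpd : (pderiv 1 g).totalDegree ≤ 3 := by
    refine Finset.sup_le fun t ht => ?_
    rw [Finsupp.sum_fintype _ _ (by simp), Fin.sum_univ_two]
    have := hp t ht
    omega
  refine ⟨g, hd, (hz hd).2 hevg, hpd, fun h => ?_, fun h => ?_, ?_⟩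
  · have h1 := hind _ (degreeOf_le_iff.2 fun t ht => by have := hp t ht; omega) ((hz hpd).1 h)
    have h2 := coeff_pderiv (i := 1) g (Finsupp.single 1 2)
    rw [h1, ← Finsupp.single_add, hc1] at h2
    haveI : CharZero K0 := charZero_of_injective_algebraMap (algebraMap ℂ K0).injective
    simp at h2
    norm_num at h2
  · have := (sh_th s (s - 3) 2).eq_zero_iff.1 h
    rw [sub_sub_cancel] at this
    exact unit_th2.ne_zero this
  · intro d
    induction d using Nat.strong_induction_on with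
    | _ d ih =>
      intro F hF hFd
      by_cases h : ev F = 0
      · obtain ⟨H, R, hR, hH⟩ := division _ hg' _ F le_rfl
        rw [add_sub_cancel] at hH
        have hR0 : R = 0 := by
          refine hind R hR ?_
          rw [hH, map_add, map_mul, hevg, zero_mul, zero_add] at h
          exact h
        rw [hR0, add_zero] at hH
        have hH0 : H ≠ 0 := fun h => hF (by rw [hH, h, mul_zero])
        have hdeg := totalDegree_mul_of_isDomain hg0 hH0
        rw [← hH, hd3] at hdeg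
        obtain ⟨j, H', e1, e2, e3, e4⟩ := ih (d - 3) (by omega) H hH0 (by omega)
        refine ⟨j + 1, H', by rw [hH, e1]; ring, by omega, by omega, ?_⟩
        rwa [show d - 3 * (j + 1) = d - 3 - 3 * j by omega]
      · exact ⟨0, F, by simp, by simp, by simpa using hFd, fun h1 => h ((hz (by simpa using hFd)).1 h1)⟩

end Pool.Agent.P.MP_8707bd_ag.Tate
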