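import Mathlib
import Pool.Agent.P.MP_8707bd_ag.Tate.Cubic
import Pool.Agent.P.MP_8707bd_ag.Tate.Cone

/-!
Reduction of plane fat point systems to systems of Laurent polynomials supported on a triangle
(helper file only).
-/

namespace Pool.Agent.P.MP_8707bd_ag.Tate

open MvPolynomial
open Pool.Agent.P.MP_8707bd_ag.All (Emp)

lemma isUnit_loc (w : ℂˣ) : IsUnit (PowerSeries.C (w : ℂ) + PowerSeries.X : PowerSeries ℂ) := by
  rw [PowerSeries.isUnit_iff_constantCoeff]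
  simp

/-- Taylor expansion of a Laurent polynomial at `w`. -/
noncomputable def loc (w : ℂˣ) : A →+* PowerSeries ℂ :=
  LaurentPolynomial.eval₂ PowerSeries.C (isUnit_loc w).unit

lemma loc_C (w : ℂˣ) (c : ℂ) : loc w (LaurentPolynomial.C c) = PowerSeries.C c := by
  rw [loc, LaurentPolynomial.eval₂_C]

lemma loc_toLaurent (w : ℂˣ) (p : Polynomial ℂ) :
    loc w (Polynomial.toLaurent p) = (Polynomial.taylor (w : ℂ) p : Polynomial ℂ) := by
  rw [loc, LaurentPolynomial.eval₂_toLaurent]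
  induction p using Polynomial.induction_on' with
  | add p q hp hq => rw [Polynomial.eval₂_add, hp, hq, map_add, Polynomial.coe_add]
  | monomial n c =>
    rw [Polynomial.eval₂_monomial, Polynomial.taylor_monomial]
    simp [add_comm]

lemma dvd_of_loc (w : ℂˣ) (p : Polynomial ℂ) (k : ℕ)
    (h : PowerSeries.X ^ k ∣ loc w (Polynomial.toLaurent p)) :
    (Polynomial.X - Polynomial.C (w : ℂ)) ^ k ∣ p := by
  rw [loc_toLaurent, PowerSeries.X_pow_dvd_iff] at h
  have h1 : Polynomial.X ^ k ∣ Polynomial.taylor (w : ℂ) p :=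
    Polynomial.X_pow_dvd_iff.2 fun m hm => by simpa using h m hm
  have h2 := map_dvd (Polynomial.taylorAlgHom (-(w : ℂ))) h1
  simpa [Polynomial.taylor_taylor, sub_eq_add_neg] using h2

lemma exists_bad {a : A} (ha : a ≠ 0) : ∃ p : Polynomial ℂ, p ≠ 0 ∧
    ∀ w : ℂˣ, p.eval (w : ℂ) ≠ 0 → IsUnit (loc w a) := by
  obtain ⟨n, p, hp⟩ := LaurentPolynomial.exists_T_pow a
  refine ⟨p, fun h => ?_, fun w hw => ?_⟩
  · rw [h, map_zero] at hp
    exact mul_ne_zero ha (LaurentPolynomial.isUnit_T _).ne_zero hp.symm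
  · have : IsUnit (loc w (Polynomial.toLaurent p)) := by
      rw [loc_toLaurent, PowerSeries.isUnit_iff_constantCoeff]
      simpa [← PowerSeries.coeff_zero_eq_constantCoeff_apply] using hw
    rw [hp, map_mul] at this
    exact isUnit_of_mul_isUnit_left this

lemma abstract_step {S : Type} [CommRing S] [IsDomain S] (κS : K0 →+* S) (θ : Fin 3 → S) (uS : S)
    (W : Filt S) (e : S →+* K0) (he : ∀ c, e (κS c) = c) (hW : ∀ x, e x = 0 → W.V 1 x)
    (g : MvPolynomial (Fin 2) K0)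
    (hd : g.totalDegree ≤ 3) (hg : hom κS θ 3 g = 0) (hpd : (pderiv 1 g).totalDegree ≤ 3)
    (hβ : IsUnit (hom κS θ 3 (pderiv 1 g))) (hθ : IsUnit (θ 2)) :
    ∃ P : Fin 2 → HahnSeries ℤ K0, ∀ (d m : ℕ) (F : MvPolynomial (Fin 2) (HahnSeries ℤ K0))
      (a : ℤ) (Hl : ℕ → MvPolynomial (Fin 2) K0),
      F ∈ RingHom.ker (eval P) ^ m →
      (∀ l, Hl l = 0 ∨ (3 * l ≤ d ∧ (Hl l).totalDegree ≤ d - 3 * l)) →
      (∀ (B : Type) [CommRing B] (φ : K0 →+* B) (x₀ x₁ z : B), eval₂Hom φ ![x₀, x₁] g = 0 →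
        (sub1 φ x₀ x₁ z F).coeff a = ∑ l ∈ Finset.range (d + 1),
          (z * eval₂Hom φ ![x₀, x₁] (pderiv 1 g)) ^ l * eval₂Hom φ ![x₀, x₁] (Hl l)) →
      ∀ k : ℕ, W.V (m - k) (∑ l ∈ Finset.range (d + 1),
        uS ^ (l - k) * (l.choose k : S) * hom κS θ (d - 3 * l) (Hl l)) := by
  obtain ⟨ι, hι⟩ := hθ.exists_right_inv
  obtain ⟨b, hb⟩ := hβ.exists_right_inv
  set ev : MvPolynomial (Fin 2) K0 →+* S := eval₂Hom κS ![θ 0 * ι, θ 1 * ι] with hev
  have hhom : ∀ {D : ℕ} {H : MvPolynomial (Fin 2) K0}, H.totalDegree ≤ D →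
      hom κS θ D H = θ 2 ^ D * ev H := fun h => hom_eq κS θ ι hι h
  set φ : K0 →+* Polynomial S := Polynomial.C.comp κS with hφ
  set x₀ : Polynomial S := Polynomial.C (θ 0 * ι) with hx₀
  set x₁ : Polynomial S := Polynomial.C (θ 1 * ι) with hx₁
  set z : Polynomial S := (Polynomial.X + Polynomial.C uS) * Polynomial.C b with hz
  have hevC : ∀ G : MvPolynomial (Fin 2) K0, eval₂Hom φ ![x₀, x₁] G = Polynomial.C (ev G) := by
    intro G
    rw [hev, map_eval₂Hom]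
    congr 2
    funext i
    fin_cases i <;> rfl
  set evB : Polynomial S →+* K0 := e.comp Polynomial.constantCoeff with hevB
  have hevBφ : ∀ c, evB (φ c) = c := by
    intro c
    simp [hevB, hφ, he]
  refine ⟨![hmap evB (HahnSeries.C x₀), hmap evB (HahnSeries.C x₁ + HahnSeries.single 1 z)],
    fun d m F a Hl hF hHl hexp k => ?_⟩
  have hcomp : (hmap evB).comp (sub1 φ x₀ x₁ z) = eval
      ![hmap evB (HahnSeries.C x₀), hmap evB (HahnSeries.C x₁ + HahnSeries.single 1 z)] := by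
    refine MvPolynomial.ringHom_ext (fun c => ?_) fun i => ?_
    · rw [RingHom.comp_apply, sub1, eval₂Hom_C, eval_C]
      ext e : 2
      rw [hmap_coeff, hmap_coeff, hevBφ]
    · rw [RingHom.comp_apply, sub1, eval₂Hom_X', eval_X]
      fin_cases i <;> rfl
  have hV : (W.poly.hahn ℤ).V m (sub1 φ x₀ x₁ z F) := by
    refine (W.poly.hahn ℤ).pow_mem (sub1 φ x₀ x₁ z) _ (fun f hf => ?_) m F hF
    rw [RingHom.mem_ker, ← hcomp, RingHom.comp_apply] at hf
    intro n i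
    rcases Nat.eq_zero_or_pos i with rfl | hi
    · exact hW _ (congrArg (fun y : HahnSeries ℤ K0 => y.coeff n) hf)
    · rw [show 1 - i = 0 by omega]
      exact W.top _
  have hg0 : ev g = 0 := by
    have := hhom hd
    rw [hg] at this
    exact (mul_eq_zero.1 this.symm).resolve_left (pow_ne_zero _ hθ.ne_zero)
  have hV2 := W.poly.mul (W.poly.top (Polynomial.C (θ 2 ^ d))) (hV a)
  rw [zero_add, hexp _ φ x₀ x₁ z (by rw [hevC, hg0, map_zero]), Finset.mul_sum] at hV2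
  have hterm : ∀ l ∈ Finset.range (d + 1), Polynomial.C (θ 2 ^ d) *
      ((z * eval₂Hom φ ![x₀, x₁] (pderiv 1 g)) ^ l * eval₂Hom φ ![x₀, x₁] (Hl l)) =
      (Polynomial.X + Polynomial.C uS) ^ l * Polynomial.C (hom κS θ (d - 3 * l) (Hl l)) := by
    intro l _
    rcases hHl l with h | ⟨h1, h2⟩
    · simp [h, hom]
    rw [hevC, hevC, hhom h2, hz]
    rw [hhom hpd] at hb
    obtain ⟨c, rfl⟩ := Nat.exists_eq_add_of_le h1
    rw [Nat.add_sub_cancel_left]
    have e : θ 2 ^ (3 * l + c) * ((b * ev (pderiv 1 g)) ^ l * ev (Hl l)) =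
        θ 2 ^ c * ev (Hl l) := by
      have : θ 2 ^ (3 * l + c) * ((b * ev (pderiv 1 g)) ^ l * ev (Hl l)) =
        (θ 2 ^ 3 * ev (pderiv 1 g) * b) ^ l * (θ 2 ^ c * ev (Hl l)) := by ring
      rw [this, hb, one_pow, one_mul]
    rw [← e]
    simp only [map_mul, map_pow, mul_pow]
    ring
  rw [Finset.sum_congr rfl hterm] at hV2
  have hV3 := hV2 k
  rw [Polynomial.finsetSum_coeff] at hV3
  simpa only [Polynomial.coeff_mul_C, Polynomial.coeff_X_add_C_pow] using hV3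

lemma local_step (w : ℂˣ) (u : ℂ) (θ : Fin 3 → R0) (g : MvPolynomial (Fin 2) K0)
    (hd : g.totalDegree ≤ 3) (hg : hom κ θ 3 g = 0) (hpd : (pderiv 1 g).totalDegree ≤ 3)
    (hβ : IsUnit (hmap (loc w) (hom κ θ 3 (pderiv 1 g)))) (hθ : IsUnit (hmap (loc w) (θ 2))) :
    ∃ P : Fin 2 → HahnSeries ℤ K0, ∀ (d m : ℕ) (F : MvPolynomial (Fin 2) (HahnSeries ℤ K0))
      (a : ℤ) (Hl : ℕ → MvPolynomial (Fin 2) K0),
      F ∈ RingHom.ker (eval P) ^ m →
      (∀ l, Hl l = 0 ∨ (3 * l ≤ d ∧ (Hl l).totalDegree ≤ d - 3 * l)) →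
      (∀ (B : Type) [CommRing B] (φ : K0 →+* B) (x₀ x₁ z : B), eval₂Hom φ ![x₀, x₁] g = 0 →
        (sub1 φ x₀ x₁ z F).coeff a = ∑ l ∈ Finset.range (d + 1),
          (z * eval₂Hom φ ![x₀, x₁] (pderiv 1 g)) ^ l * eval₂Hom φ ![x₀, x₁] (Hl l)) →
      ∀ (ω : ℝ) (k : ℕ), PowerSeries.X ^ (m - k) ∣ loc w
        ((Polynomial.taylor (LaurentPolynomial.C u) (∑ l ∈ Finset.range (d + 1),
          Polynomial.monomial l ((hom κ θ (d - 3 * l) (Hl l)).coeff ω))).coeff k) := by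
  obtain ⟨P, hP⟩ := abstract_step (S := HahnSeries ℝ (PowerSeries ℂ)) ((hmap (loc w)).comp κ)
    (fun i => hmap (loc w) (θ i)) (HahnSeries.C (PowerSeries.C u))
    ((powFilt (PowerSeries.X : PowerSeries ℂ)).hahn ℝ) (hmap (PowerSeries.constantCoeff (R := ℂ)))
    (fun c => by ext γ; simp [κ, hmap_coeff, loc_C])
    (fun x hx γ => by
      change PowerSeries.X ^ 1 ∣ _
      rw [pow_one, PowerSeries.X_dvd_iff]
      exact congrArg (fun y : K0 => y.coeff γ) hx)
    g hd (by rw [← map_hom, hg, map_zero]) hpd (by rw [← map_hom]; exact hβ) hθ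
  refine ⟨P, fun d m F a Hl hF hHl hexp ω k => ?_⟩
  have hV3 : PowerSeries.X ^ (m - k) ∣ _ := hP d m F a Hl hF hHl hexp k ω
  convert hV3 using 1
  rw [map_sum, Polynomial.finsetSum_coeff, map_sum, HahnSeries.coeff_sum]
  refine Finset.sum_congr rfl fun l _ => ?_
  rw [Polynomial.taylor_monomial, Polynomial.coeff_C_mul, Polynomial.coeff_X_add_C_pow,
    ← map_pow HahnSeries.C, ← map_hom, ← map_natCast (HahnSeries.C : PowerSeries ℂ →+* HahnSeries ℝ (PowerSeries ℂ)),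
    ← map_mul HahnSeries.C, HahnSeries.C_apply, HahnSeries.coeff_single_zero_mul, hmap_coeff]
  simp only [map_mul, map_pow, map_natCast, loc_C]
  ring

/-- If the system of Laurent polynomials supported on the triangle and vanishing at the given
points of the torus is empty, then so is a plane system with the same multiplicities. -/
theorem core (η : ℝ) : ∃ p : Polynomial ℂ, p ≠ 0 ∧
    ∀ {ι : Type} (w : ι → ℂˣ) (u : ι → ℂ), (∀ i, p.eval (w i : ℂ) ≠ 0) →
    ∃ P : ι → Fin 2 → HahnSeries ℤ K0, ∀ (μ : ι → ℕ) (d : ℕ),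
      (∀ Φ : Polynomial A,
        (∀ (l : ℕ) (n : ℤ), (Φ.coeff l).coeff n ≠ 0 → 3 * l ≤ d ∧
          η * ((d : ℝ) - 3 * l) ≤ n ∧ (n : ℝ) ≤ (η + 3) * ((d : ℝ) - 3 * l)) →
        (∀ i k, PowerSeries.X ^ (μ i - k) ∣
          loc (w i) ((Polynomial.taylor (LaurentPolynomial.C (u i)) Φ).coeff k)) → Φ = 0) →
      Emp P μ (d + 1) := by
  classical
  obtain ⟨g, hd, hg, hpd, hβ, hθ, hfac⟩ := cubic (2 * η + 3)
  set θ := th (2 * η + 3) with hθd
  obtain ⟨p₁, hp₁, h₁⟩ := exists_bad (HahnSeries.coeff_order_eq_zero.not.2 hβ)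
  obtain ⟨p₂, hp₂, h₂⟩ := exists_bad (HahnSeries.coeff_order_eq_zero.not.2 hθ)
  refine ⟨p₁ * p₂, mul_ne_zero hp₁ hp₂, fun {ι} w u hw => ?_⟩
  simp only [Polynomial.eval_mul] at hw
  have hloc := fun i => local_step (w i) (u i) θ g hd hg hpd
    (((lead_order _).hmap (loc (w i))).isUnit (h₁ _ (left_ne_zero_of_mul (hw i))))
    (((lead_order _).hmap (loc (w i))).isUnit (h₂ _ (right_ne_zero_of_mul (hw i))))
  choose P hP using hloc
  refine ⟨P, fun μ d hΦ F hFd hF => ?_⟩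
  by_contra hF0
  obtain ⟨a, Hl, hQ, ⟨l₀, hl₀, hQ₀⟩, hexp⟩ := cone g
    (fun j H => 3 * j ≤ d ∧ H.totalDegree ≤ d - 3 * j ∧ hom κ θ (d - 3 * j) H ≠ 0) d
    (fun G hG hGd => by
      obtain ⟨j, H, e1, e2, e3, e4⟩ := hfac d G hG hGd
      exact ⟨j, H, e1, by omega, e2, e3, e4⟩) F hF0 (by omega)
  set f : ℕ → R0 := fun l => hom κ θ (d - 3 * l) (Hl l) with hf
  have hne : ((Finset.range (d + 1)).filter fun l => f l ≠ 0).Nonempty :=
    ⟨l₀, Finset.mem_filter.2 ⟨Finset.mem_range.2 (by omega), hQ₀.2.2⟩⟩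
  obtain ⟨l₁, hl₁, hmin⟩ := Finset.exists_min_image _ (fun l => (f l).order) hne
  rw [Finset.mem_filter] at hl₁
  set ω := (f l₁).order with hω
  have hco : ∀ l, (∑ l ∈ Finset.range (d + 1), Polynomial.monomial l ((f l).coeff ω)).coeff l =
      if l ∈ Finset.range (d + 1) then (f l).coeff ω else 0 := by
    intro l
    simp only [Polynomial.finsetSum_coeff, Polynomial.coeff_monomial, Finset.sum_ite_eq']
  have h0 := hΦ (∑ l ∈ Finset.range (d + 1), Polynomial.monomial l ((f l).coeff ω))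
    (fun l n hn => ?_) fun i k => hP i d (μ i) F a Hl (hF i)
      (fun l => (hQ l).imp id fun h => ⟨h.1, h.2.1⟩) hexp ω k
  · have := hco l₁
    rw [h0, if_pos hl₁.1, Polynomial.coeff_zero] at this
    exact hl₁.2 (HahnSeries.coeff_order_eq_zero.1 this.symm)
  · rw [hco] at hn
    by_cases hl : l ∈ Finset.range (d + 1)
    swap
    · simp [hl] at hn
    rw [if_pos hl] at hn
    have hfl : f l ≠ 0 := fun h => by simp [h] at hn
    rcases hQ l with h | ⟨h1, h2, -⟩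
    · exact absurd (by simp [hf, h, hom]) hfl
    have hLB : LB ω (f l) := fun γ hγ => HahnSeries.coeff_eq_zero_of_lt_order
      (hγ.trans_le (hmin l (Finset.mem_filter.2 ⟨hl, hfl⟩)))
    have := (theta_hom η h2).window hLB hn
    rw [Nat.cast_sub h1] at this
    push_cast at this
    exact ⟨h1, this⟩

end Pool.Agent.P.MP_8707bd_ag.Tate
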