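import Mathlib
import Pool.Agent.P.MP_8707bd_ag.Tate.Core
import Pool.Agent.P.MP_8707bd_ag.All.Transfer

/-!
All points on the curve `u = 1`: the induction of Bezout type on the triangle (helper file only).
-/

namespace Pool.Agent.P.MP_8707bd_ag.Tate

open Polynomial

/-- The column of exponent `n` of a polynomial with Laurent coefficients. -/
noncomputable def col (n : ℤ) (Φ : Polynomial A) : Polynomial ℂ :=
  ∑ l ∈ Φ.support, monomial l ((Φ.coeff l).coeff n)

lemma coeff_col (n : ℤ) (Φ : Polynomial A) (l : ℕ) : (col n Φ).coeff l = (Φ.coeff l).coeff n := by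
  classical
  simp only [col, finsetSum_coeff, coeff_monomial, Finset.sum_ite_eq']
  split_ifs with h
  · rfl
  · rw [notMem_support_iff.1 h]
    rfl

lemma col_taylor (n : ℤ) (Φ : Polynomial A) (k : ℕ) :
    (taylor 1 (col n Φ)).coeff k = ((taylor (LaurentPolynomial.C (1 : ℂ)) Φ).coeff k).coeff n := by
  conv_rhs => rw [Φ.as_sum_support]
  rw [col, map_sum, map_sum, finsetSum_coeff, finsetSum_coeff, AddMonoidAlgebra.coeff_sum,
    Finsupp.finsetSum_apply]
  refine Finset.sum_congr rfl fun l _ => ?_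
  rw [taylor_monomial, taylor_monomial, coeff_C_mul, coeff_C_mul, coeff_X_add_C_pow,
    coeff_X_add_C_pow, map_one, one_pow, one_pow, one_mul, one_mul, mul_comm (Φ.coeff l),
    ← nsmul_eq_mul, mul_comm, ← nsmul_eq_mul]
  rfl

lemma tent {r : ℕ} (η : ℝ) (hη : 0 ≤ η) (w : Fin r → ℂˣ) (hw : Function.Injective w) (m d : ℕ)
    (Φ : Polynomial A) (hΦ : Φ ≠ 0)
    (hs : ∀ (l : ℕ) (n : ℤ), (Φ.coeff l).coeff n ≠ 0 → 3 * l ≤ d ∧
      η * ((d : ℝ) - 3 * l) ≤ n ∧ (n : ℝ) ≤ (η + 3) * ((d : ℝ) - 3 * l))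
    (hv : ∀ i k, PowerSeries.X ^ (m - k) ∣
      loc (w i) ((taylor (LaurentPolynomial.C (1 : ℂ)) Φ).coeff k)) :
    ∃ (k : ℕ) (n₁ n₂ : ℤ), η * (η + 3) * k ≤ n₁ ∧ (n₂ : ℝ) ≤ (η + 3) * ((d : ℝ) - 3 * k) ∧
      n₁ + (r * (m - k) : ℕ) ≤ n₂ := by
  classical
  set Ψ := taylor (LaurentPolynomial.C (1 : ℂ)) Φ with hΨ
  have hΨ0 : Ψ ≠ 0 := fun h => hΦ (taylor_injective _ (by rw [← hΨ, h, map_zero]))
  set k := Ψ.natTrailingDegree with hk
  have hM : Ψ.coeff k ≠ 0 := coeff_natTrailingDegree_eq_zero.not.2 hΨ0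
  have hcol : ∀ n : ℤ, (Ψ.coeff k).coeff n ≠ 0 →
      η * (η + 3) * k ≤ n ∧ (n : ℝ) ≤ (η + 3) * ((d : ℝ) - 3 * k) := by
    intro n hn
    have h0 : col n Φ ≠ 0 := by
      intro h
      apply hn
      rw [hΨ, ← col_taylor, h, map_zero, coeff_zero]
    have h1 : X ^ k ∣ taylor 1 (col n Φ) := by
      refine X_pow_dvd_iff.2 fun j hj => ?_
      rw [col_taylor, ← hΨ, coeff_eq_zero_of_lt_natTrailingDegree hj]
      rfl
    have h2 : (X - C 1) ^ k ∣ col n Φ := by
      have h2 := map_dvd (taylorAlgHom (-1 : ℂ)) h1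
      simpa [taylor_taylor, sub_eq_add_neg] using h2
    obtain ⟨l₁, l₂, e1, e2, e3⟩ := two_exps h0 h2 (by simp [coeff_zero_eq_eval_zero])
    rw [natDegree_pow, natDegree_X_sub_C, mul_one] at e3
    rw [coeff_col] at e1 e2
    have a1 := (hs _ _ e1).2.1
    have a2 := (hs _ _ e2).2.2
    have a3 : (l₁ : ℝ) + k ≤ l₂ := by exact_mod_cast e3
    have a4 : (0 : ℝ) ≤ l₁ := Nat.cast_nonneg _
    have a5 : (n : ℝ) ≤ (η + 3) * ((d : ℝ) - 3 * l₁ - 3 * k) :=
      a2.trans (mul_le_mul_of_nonneg_left (by linarith) (by linarith))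
    constructor
    · have b1 := mul_le_mul_of_nonneg_left a5 hη
      have b2 := mul_le_mul_of_nonneg_left a1 (by linarith : 0 ≤ η + 3)
      nlinarith
    · exact a5.trans (mul_le_mul_of_nonneg_left (by linarith) (by linarith))
  obtain ⟨N, p, hp⟩ := LaurentPolynomial.exists_T_pow (Ψ.coeff k)
  have hp0 : p ≠ 0 := by
    intro h
    rw [h, map_zero] at hp
    exact mul_ne_zero hM (LaurentPolynomial.isUnit_T _).ne_zero hp.symm
  have hpc : ∀ n : ℕ, p.coeff n = (Ψ.coeff k).coeff (n - N) := by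
    intro n
    have := congrArg (fun a : A => a.coeff (n : ℤ)) hp
    simp only [LaurentPolynomial.T, AddMonoidAlgebra.coeff_mul_single_apply, mul_one] at this
    rw [sub_eq_add_neg, ← this, LaurentPolynomial.coeff_toLaurent]
    exact (Finsupp.mapDomain_apply (Nat.castEmbedding (R := ℤ)).injective _ n).symm
  have hdvd : (∏ i, (X - C (w i : ℂ)) ^ (m - k)) ∣ p := by
    refine Finset.prod_dvd_of_coprime (fun i _ j _ hij => ?_) fun i _ => ?_
    · exact (pairwise_coprime_X_sub_C (Units.val_injective.comp hw) hij).pow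
    · refine dvd_of_loc _ _ _ ?_
      rw [hp, map_mul]
      exact (hv i k).mul_right _
  obtain ⟨n₁, n₂, e1, e2, e3⟩ := two_exps hp0 hdvd (by
    simp [coeff_zero_eq_eval_zero, eval_prod, Finset.prod_eq_zero_iff])
  rw [natDegree_prod _ _ fun i _ => pow_ne_zero _ (X_sub_C_ne_zero _)] at e3
  simp only [natDegree_pow, natDegree_X_sub_C, mul_one, Finset.sum_const, Finset.card_univ,
    Fintype.card_fin, smul_eq_mul] at e3
  rw [hpc] at e1 e2
  exact ⟨k, n₁ - N, n₂ - N, (hcol _ e1).1, (hcol _ e2).2, by omega⟩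

lemma numerics (r m d : ℕ) (hr : 10 ≤ r) (hm : 1 ≤ m) (hd : d ^ 2 ≤ r * m ^ 2) :
    ∃ η : ℝ, 0 ≤ η ∧ ∀ (k : ℕ) (n₁ n₂ : ℤ), η * (η + 3) * k ≤ n₁ →
      (n₂ : ℝ) ≤ (η + 3) * ((d : ℝ) - 3 * k) → n₂ < n₁ + (r * (m - k) : ℕ) := by
  have hr' : (10 : ℝ) ≤ r := by exact_mod_cast hr
  have hm' : (1 : ℝ) ≤ m := by exact_mod_cast hm
  rcases hd.lt_or_eq with hlt | heq
  · set s := Real.sqrt r with hs
    have hs2 : s * s = r := Real.mul_self_sqrt (by linarith)
    have hs0 : 0 ≤ s := Real.sqrt_nonneg _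
    have hs3 : 3 ≤ s := by nlinarith
    have hds : (d : ℝ) < s * m := by
      have : (d : ℝ) ^ 2 < r * m ^ 2 := by exact_mod_cast hlt
      refine lt_of_pow_lt_pow_left₀ 2 (by positivity) ?_
      rw [mul_pow, sq s, hs2]
      exact this
    refine ⟨s - 3, by linarith, fun k n₁ n₂ h1 h2 => ?_⟩
    have h3 : (r : ℝ) * (m - k) ≤ ((r * (m - k) : ℕ) : ℝ) := by
      rw [Nat.cast_mul]
      refine mul_le_mul_of_nonneg_left ?_ (by linarith)
      rcases le_total k m with h | h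
      · rw [Nat.cast_sub h]
      · have : (m : ℝ) ≤ k := by exact_mod_cast h
        have := Nat.cast_nonneg (α := ℝ) (m - k)
        linarith
    have h4 : (n₂ : ℝ) < n₁ + ((r * (m - k) : ℕ) : ℝ) := by
      have h5 : s * d < s * (s * m) := mul_lt_mul_of_pos_left hds (by linarith)
      rw [← mul_assoc, hs2] at h5
      have h6 : (s - 3) * (s - 3 + 3) * k = r * k - 3 * s * k := by rw [← hs2]; ring
      nlinarith
    exact_mod_cast h4
  · have hdvd : m ∣ d := (Nat.pow_dvd_pow_iff (two_ne_zero)).1 ⟨r, by rw [heq]; ring⟩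
    obtain ⟨c, rfl⟩ := hdvd
    have hrc : r = c ^ 2 := by
      have : m ^ 2 * c ^ 2 = m ^ 2 * r := by rw [← mul_pow, heq]; ring
      exact (Nat.eq_of_mul_eq_mul_left (by positivity) this).symm
    have hc : 4 ≤ c := by
      by_contra h
      have : c ^ 2 ≤ 3 ^ 2 := Nat.pow_le_pow_left (by omega) 2
      omega
    have hc' : (4 : ℝ) ≤ c := by exact_mod_cast hc
    set δ : ℝ := 1 / (2 * c * (m + 1)) with hδ
    have hδ0 : 0 < δ := by positivity
    have hδ1 : δ * (2 * c * (m + 1)) = 1 := by rw [hδ]; field_simp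
    have hδ2 : δ * (m + 1) ≤ 1 / 8 := by nlinarith
    have hδ3 : δ ≤ 1 / 8 := by nlinarith
    refine ⟨c - 3 - δ, by linarith, fun k n₁ n₂ h1 h2 => ?_⟩
    have hk0 : (0 : ℝ) ≤ k := Nat.cast_nonneg _
    rw [show (c : ℝ) - 3 - δ + 3 = c - δ by ring] at h1 h2
    push_cast at h2
    rcases le_or_gt k m with h | h
    · have hk : (k : ℝ) ≤ m := by exact_mod_cast h
      have b1 : (n₂ : ℝ) < c * (m * c - 3 * k) :=
        h2.trans_lt (mul_lt_mul_of_pos_right (by linarith) (by nlinarith))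
      have b2 : ((c - 3) * c * k : ℝ) - 1 < n₁ := by
        refine lt_of_lt_of_le ?_ h1
        have c1 : δ * (2 * c) * k ≤ δ * (2 * c) * m := by gcongr
        have c2 : 0 ≤ δ * k := by positivity
        have c3 : 0 ≤ δ * δ * k := by positivity
        have c4 : 0 < δ * c := by positivity
        nlinarith
      have b3 : n₂ < (c : ℤ) * (m * c - 3 * k) := by exact_mod_cast b1
      have b4 : ((c : ℤ) - 3) * c * k - 1 < n₁ := by exact_mod_cast b2
      rw [hrc]
      push_cast [Nat.cast_sub h]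
      nlinarith
    · have hk : (m : ℝ) + 1 ≤ k := by exact_mod_cast h
      have b1 : (n₂ : ℝ) < n₁ := by
        refine h2.trans_lt (lt_of_lt_of_le ?_ h1)
        have c1 : m * c < (c - δ) * k := by
          have : (c - δ) * (m + 1) ≤ (c - δ) * k := by gcongr; linarith
          nlinarith
        have c2 := mul_lt_mul_of_pos_left c1 (by linarith : (0 : ℝ) < c - δ)
        nlinarith
      have b2 : n₂ < n₁ := by exact_mod_cast b1
      omega

theorem nagata (r m d : ℕ) (hr : 10 ≤ r) (hm : 1 ≤ m) (hd : d ^ 2 ≤ r * m ^ 2) :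
    ∃ Φ : MvPolynomial (Fin r × Fin 3) ℂ, Φ ≠ 0 ∧ ∀ p : Fin r → Fin 3 → ℂ,
      MvPolynomial.eval (fun ij : Fin r × Fin 3 => p ij.1 ij.2) Φ ≠ 0 →
      fat p (fun _ => m) d = ⊥ := by
  obtain ⟨η, hη, hnum⟩ := numerics r m d hr hm hd
  obtain ⟨p, hp, hcore⟩ := core η
  have hinf : {x : ℂ | ¬ (X * p).IsRoot x}.Infinite :=
    (finite_setOfPred_isRoot (mul_ne_zero X_ne_zero hp)).infinite_compl
  set e := hinf.natEmbedding with he
  have hx : ∀ n, (e n : ℂ) ≠ 0 ∧ p.eval (e n : ℂ) ≠ 0 := by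
    intro n
    have := (e n).2
    simpa [not_or] using this
  obtain ⟨P, hP⟩ := hcore (fun i : Fin r => Units.mk0 (e i : ℂ) (hx i).1) (fun _ => 1)
    fun i => (hx i).2
  refine All.transfer P _ d (hP _ d fun Φ hs hv => ?_)
  by_contra hΦ
  obtain ⟨k, n₁, n₂, h1, h2, h3⟩ := tent η hη _ (fun i j hij => Fin.ext (e.injective
    (Subtype.ext (by simpa using congrArg Units.val hij)))) m d Φ hΦ hs hv
  exact absurd (hnum k n₁ n₂ h1 h2) (not_lt.2 h3)

lemma exp_zero (r m d : ℕ) (hr : 10 ≤ r) (hm : 1 ≤ m) (hd : d ^ 2 ≤ r * m ^ 2) :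
    (d + 2).choose 2 - r * (m + 1).choose 2 = 0 := by
  have h1 : 3 * d < r * m := by
    refine lt_of_pow_lt_pow_left₀ 2 (Nat.zero_le _) ?_
    have : 10 * (r * m ^ 2) ≤ r * (r * m ^ 2) := Nat.mul_le_mul_right _ hr
    have : 0 < r * m ^ 2 := by positivity
    nlinarith
  have h2 : 2 * (d + 2).choose 2 = (d + 2) * (d + 1) := by
    rw [Nat.choose_two_right]
    exact Nat.mul_div_cancel' (Nat.even_mul_pred_self (d + 2)).two_dvd
  have h3 : 2 * (m + 1).choose 2 = (m + 1) * m := by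
    rw [Nat.choose_two_right]
    exact Nat.mul_div_cancel' (Nat.even_mul_pred_self (m + 1)).two_dvd
  have h4 : 2 * (d + 2).choose 2 ≤ 2 * (r * (m + 1).choose 2) + 1 := by
    rw [mul_left_comm, h2, h3]
    nlinarith
  omega

end Pool.Agent.P.MP_8707bd_ag.Tate
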